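import Pool.Agent.H602Z.KT.Spec

set_option autoImplicit false
set_option linter.unusedSectionVars false
set_option linter.unusedVariables false

/-!
Matrix lemmas for the reduction of the unitary Kun-Thom theorem to its matrix core.
-/

namespace Pool.Agent.H918Z.KT

open Matrix Finset Pool.Agent.H304Z.NH Pool.Agent.H602Z.KT
open scoped MatrixOrder ComplexOrder
open Pool.Agent.H726Z.NH (D D_mul D_star D_one D_le tr_D)
open Pool.Agent.H566Z.NHLC (sumL sumR LL_conj RR_conj nsq_add4_le)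

section basic

variable {n : Type} [Fintype n] [DecidableEq n] {ι : Type} [Fintype ι]

theorem sL {y : ι → Mat n} (h : LL y ≤ 1) (x : Mat n) : ∑ a, nsq (x * y a) ≤ nsq x := by
  have := sumL isProj_one (m := 1) (y := y) (by rwa [one_smul]) x
  rwa [one_mul, Matrix.mul_one] at this

theorem sR {y : ι → Mat n} (h : RR y ≤ 1) (x : Mat n) : ∑ a, nsq (y a * x) ≤ nsq x := by
  have := sumR isProj_one (m := 1) (y := y) (by rwa [one_smul]) x
  rwa [one_mul, Matrix.one_mul] at this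

theorem EE_nonneg {G : Type} (u : G → Mat n) (S : Finset G) (y : ι → Mat n) : 0 ≤ EE u S y :=
  sum_nonneg fun _ _ => en_nonneg _ _ _

theorem EE_le {G : Type} {u : G → Mat n} {S : Finset G} {y : ι → Mat n} {K : ℝ}
    (h : ∀ s ∈ S, ∑ i, nsq (cm (u s) (y i)) ≤ K) : EE u S y ≤ S.card * K := by
  have e : EE u S y = ∑ s ∈ S, ∑ i, nsq (cm (u s) (y i)) := by
    simp only [EE, en]
    exact sum_comm
  rw [e]
  have := Finset.sum_le_card_nsmul S _ K h
  rwa [nsmul_eq_mul] at this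

theorem nsq_U {u : Mat n} (hu : IsU u) : nsq u = Fintype.card n := by
  rw [nsq_eq, hu.1, tr_one]

theorem df2 {G : Type} [Group G] (u : G → Mat n) {a b a' b' : G} (h : a * b = a' * b') {ω : ℝ}
    (h1 : nsq (df u a b) ≤ ω) (h2 : nsq (df u a' b') ≤ ω) :
    nsq (u a * u b - u a' * u b') ≤ 4 * ω := by
  have e : u a * u b - u a' * u b' = df u a b - df u a' b' := by
    simp only [df, h]
    abel
  have := nsq_sub_le (df u a b) (df u a' b')
  rw [e]
  linarith

theorem sum_proj {J : Type} [Fintype J] {p : J → Mat n} (hp : ∀ j, IsProj (p j))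
    (ho : ∀ i j, i ≠ j → p i * p j = 0) : ∑ j, p j ≤ 1 := by
  classical
  refine IsProj.le_one ⟨?_, ?_⟩
  · rw [conjTranspose_sum]
    exact sum_congr rfl fun j _ => (hp j).1
  · rw [Finset.sum_mul]
    refine sum_congr rfl fun i _ => ?_
    rw [Finset.mul_sum, sum_eq_single i, (hp i).2]
    · intro j _ hj
      exact ho i j hj.symm
    · intro h
      exact absurd (mem_univ i) h

theorem LL_proj {J : Type} [Fintype J] {p : J → Mat n} (hp : ∀ j, IsProj (p j)) :
    LL p = ∑ j, p j := sum_congr rfl fun j _ => by rw [(hp j).1, (hp j).2]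

theorem RR_proj {J : Type} [Fintype J] {p : J → Mat n} (hp : ∀ j, IsProj (p j)) :
    RR p = ∑ j, p j := sum_congr rfl fun j _ => by rw [(hp j).1, (hp j).2]

theorem LL_pb {J : Type} [Fintype J] {p : J → Mat n} (hp : ∀ j, IsProj (p j))
    {b : J → ι → Mat n} (hb : ∀ j, LL (b j) ≤ 1) :
    LL (fun q : J × ι => p q.1 * b q.1 q.2) ≤ ∑ j, p j := by
  rw [LL, Fintype.sum_prod_type]
  refine sum_le_sum fun j _ => ?_
  have := conj_le' (hb j) (p j)
  rw [Matrix.mul_one, (hp j).1, (hp j).2, LL, Finset.mul_sum, Finset.sum_mul] at this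
  simpa only [conjTranspose_mul, (hp j).1, Matrix.mul_assoc] using this

theorem LL_cj {z : ι → Mat n} (hz : LL z ≤ 1) {A B : Mat n} (hA : IsU A) (hB : IsU B) :
    LL (fun a => A * z a * B) ≤ 1 := by
  refine (LL_conj z A hB.2.le).trans ?_
  have := conj_le' hz A
  rwa [Matrix.mul_one, hA.2] at this

theorem RR_cj {z : ι → Mat n} (hz : RR z ≤ 1) {A B : Mat n} (hA : IsU A) (hB : IsU B) :
    RR (fun a => A * z a * B) ≤ 1 := by
  refine (RR_conj z hA.1.le B).trans ?_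
  have := conj_le hz B
  rwa [Matrix.mul_one, hB.1] at this

theorem pb_en {J : Type} [Fintype J] {p : J → Mat n} (hRp : RR p ≤ 1)
    {b : J → ι → Mat n} (hb : ∀ j, LL (b j) ≤ 1)
    (hR : RR (fun q : J × ι => p q.1 * b q.1 q.2) ≤ 1) {a v : Mat n}
    (hv : ∀ j i, v * b j i = b j i * v) :
    ∑ q : J × ι, nsq (cm a (p q.1 * b q.1 q.2)) ≤
      3 * ∑ j, nsq (cm a (p j)) + 6 * nsq (a - v) := by
  have h1 : ∀ q : J × ι, nsq (cm a (p q.1 * b q.1 q.2)) ≤
      3 * nsq (cm a (p q.1) * b q.1 q.2) + 3 * nsq (p q.1 * (a - v) * b q.1 q.2) +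
        3 * nsq (p q.1 * b q.1 q.2 * (a - v)) := by
    intro q
    have e : cm a (p q.1 * b q.1 q.2) = cm a (p q.1) * b q.1 q.2 + p q.1 * (a - v) * b q.1 q.2 +
        -(p q.1 * b q.1 q.2 * (a - v)) := by
      have e1 : cm a (p q.1) * b q.1 q.2 + p q.1 * (a - v) * b q.1 q.2 +
          -(p q.1 * b q.1 q.2 * (a - v)) =
          cm a (p q.1 * b q.1 q.2) + p q.1 * (b q.1 q.2 * v - v * b q.1 q.2) := by
        simp only [cm]; noncomm_ring
      rw [e1, hv, sub_self, Matrix.mul_zero, add_zero]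
    have := nsq_add3_le (cm a (p q.1) * b q.1 q.2) (p q.1 * (a - v) * b q.1 q.2)
      (-(p q.1 * b q.1 q.2 * (a - v)))
    rwa [nsq_neg, ← e] at this
  have h2 := sum_le_sum fun q (_ : q ∈ (univ : Finset (J × ι))) => h1 q
  rw [sum_add_distrib, sum_add_distrib, ← Finset.mul_sum, ← Finset.mul_sum,
    ← Finset.mul_sum] at h2
  have h3 : ∑ q : J × ι, nsq (cm a (p q.1) * b q.1 q.2) ≤ ∑ j, nsq (cm a (p j)) := by
    rw [Fintype.sum_prod_type]
    exact sum_le_sum fun j _ => sL (hb j) (cm a (p j))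
  have h4 : ∑ q : J × ι, nsq (p q.1 * (a - v) * b q.1 q.2) ≤ nsq (a - v) := by
    rw [Fintype.sum_prod_type]
    exact (sum_le_sum fun j _ => sL (hb j) (p j * (a - v))).trans (sR hRp (a - v))
  have h5 := sR hR (a - v)
  linarith

theorem conj_en {w c : Mat n} (a a' : Mat n) (hw : IsU w) (hc : IsU c) {z : ι → Mat n}
    (hL : LL z ≤ 1) (hR : RR z ≤ 1) :
    ∑ i, nsq (cm a (wᴴ * z i * (c * w))) ≤ 4 * ∑ i, nsq (cm a' (z i)) +
      8 * nsq (w * a - a' * w) + 4 * nsq (c * a' - a' * c) := by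
  have h1 : ∀ i, nsq (cm a (wᴴ * z i * (c * w))) ≤ 4 * nsq (cm a' (z i)) +
      4 * nsq ((w * a - a' * w) * wᴴ * z i) + 4 * nsq (z i * (c * a' - a' * c)) +
      4 * nsq (z i * (c * (w * a - a' * w))) := by
    intro i
    have e : cm a (wᴴ * z i * (c * w)) = wᴴ * (cm a' (z i) * (c * w)) +
        wᴴ * ((w * a - a' * w) * wᴴ * z i * (c * w)) + -(wᴴ * (z i * (c * a' - a' * c) * w)) +
        -(wᴴ * (z i * (c * (w * a - a' * w)))) := by
      have e1 : wᴴ * (cm a' (z i) * (c * w)) +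
          wᴴ * ((w * a - a' * w) * wᴴ * z i * (c * w)) + -(wᴴ * (z i * (c * a' - a' * c) * w)) +
          -(wᴴ * (z i * (c * (w * a - a' * w)))) =
          (wᴴ * w) * a * (wᴴ * z i * (c * w)) - wᴴ * z i * (c * w) * a +
            wᴴ * a' * (1 - w * wᴴ) * z i * (c * w) := by
        simp only [cm]; noncomm_ring
      rw [e1, hw.1, hw.2, sub_self, Matrix.mul_zero, Matrix.zero_mul, Matrix.zero_mul, add_zero,
        Matrix.one_mul, cm]
    have := nsq_add4_le (wᴴ * (cm a' (z i) * (c * w)))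
      (wᴴ * ((w * a - a' * w) * wᴴ * z i * (c * w))) (-(wᴴ * (z i * (c * a' - a' * c) * w)))
      (-(wᴴ * (z i * (c * (w * a - a' * w)))))
    rwa [← e, nsq_neg, nsq_neg, nsq_U_mul hw.star, nsq_U_mul hw.star, nsq_U_mul hw.star,
      nsq_U_mul hw.star, nsq_mul_U (hc.mul hw), nsq_mul_U (hc.mul hw), nsq_mul_U hw] at this
  have h2 := sum_le_sum fun i (_ : i ∈ (univ : Finset ι)) => h1 i
  rw [sum_add_distrib, sum_add_distrib, sum_add_distrib, ← Finset.mul_sum, ← Finset.mul_sum,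
    ← Finset.mul_sum, ← Finset.mul_sum] at h2
  have h3 := sL hL ((w * a - a' * w) * wᴴ)
  have h4 := sR hR (c * a' - a' * c)
  have h5 := sR hR (c * (w * a - a' * w))
  rw [nsq_mul_U hw.star] at h3
  rw [nsq_U_mul hc] at h5
  linarith

theorem EB_contr [DecidableEq ι] {B : StarSubalgebra ℂ (Mat n)} {y : ι → Mat n} (hy : ONB B y)
    {c : Mat n} (hc : IsU c) : (EB y c)ᴴ * EB y c ≤ 1 := by
  have heB : EB y c ∈ B := EB_mem hy c
  have hte : ∀ b ∈ B, trace (bᴴ * EB y c) = trace (bᴴ * c) := fun b hb => trace_mem_EB hy hb c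
  generalize EB y c = e at heB hte
  have hh : (eᴴ * e)ᴴ = eᴴ * e := by rw [conjTranspose_mul, conjTranspose_conjTranspose]
  obtain ⟨V, lam, hV, hD⟩ := Pool.Agent.H509Z.QE.spec hh
  have hB : D V lam ∈ B := hD ▸ B.mul_mem (star_mem' heB) heB
  obtain ⟨χ, hχ⟩ : ∃ χ : ℝ → ℝ, ∀ t, χ t = if 1 < t then 1 else 0 := ⟨_, fun _ => rfl⟩
  obtain ⟨P, hP⟩ : ∃ P, P = D V (fun i => χ (lam i)) := ⟨_, rfl⟩
  have hPB : P ∈ B := hP ▸ Pool.Agent.H509Z.QE.D_mem B hV lam hB χ
  have hPp : IsProj P := by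
    rw [hP]
    refine ⟨D_star _ _, ?_⟩
    rw [D_mul hV]
    congr 1
    funext i
    rw [hχ]
    split_ifs <;> simp
  have h1 : nsq (e * P) = ∑ i, lam i * χ (lam i) := by
    rw [hPp.nsq_mul, hD, hP, D_mul hV, tr_D hV]
  have h2 : tr ((e * P)ᴴ * (c * P)) = nsq (e * P) := by
    have a1 : tr ((e * P)ᴴ * (c * P)) = tr ((e * P)ᴴ * c) := by
      rw [← Matrix.mul_assoc, tr_comm, ← Matrix.mul_assoc, conjTranspose_mul, hPp.1,
        ← Matrix.mul_assoc, hPp.2]
    have a2 : tr ((e * P)ᴴ * c) = tr ((e * P)ᴴ * e) := by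
      rw [tr, tr, hte _ (B.mul_mem heB hPB)]
    rw [a1, a2, hPp.nsq_mul, conjTranspose_mul, hPp.1, Matrix.mul_assoc, tr_comm]
  have h3 := two_tr_le 1 one_pos (e * P) (c * P)
  rw [h2, nsq_U_mul hc, hPp.nsq_eq, h1, hP, tr_D hV] at h3
  have h4 : ∑ i, (lam i - 1) * χ (lam i) ≤ 0 := by
    simp only [sub_mul, one_mul, sum_sub_distrib]
    linarith
  have h5 : ∀ i, 0 ≤ (lam i - 1) * χ (lam i) := by
    intro i
    rw [hχ]
    split_ifs with h
    · linarith
    · simp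
  rw [hD, ← D_one hV]
  refine D_le V fun i => ?_
  by_contra hlt
  have h6 := (single_le_sum (fun i _ => h5 i) (mem_univ i)).trans h4
  rw [hχ, if_pos (not_le.1 hlt)] at h6
  exact hlt (by linarith)

theorem cm_contr {e a v : Mat n} (he : eᴴ * e ≤ 1) (hv : v * e = e * v) :
    nsq (cm a e) ≤ 4 * nsq (a - v) := by
  have e1 : cm a e = (a - v) * e - e * (a - v) := by
    have e2 : (a - v) * e - e * (a - v) = cm a e + (e * v - v * e) := by
      simp only [cm]; noncomm_ring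
    rw [e2, hv, sub_self, add_zero]
  have h1 := nsq_sub_le ((a - v) * e) (e * (a - v))
  have h2 := nsq_mul_le_right (mul_star_le_one he) (a - v)
  have h3 := nsq_mul_le_left he (a - v)
  rw [e1]
  linarith

theorem ec {N : ℕ} (hN : 0 < N) {e c : Mat n} (he : tr (eᴴ * c) = nsq e)
    (hed : nsq e ≤ Fintype.card n) {w k : Fin N → Mat n} (hw : ∀ i, IsU (w i))
    (hk : ∀ i, IsU (k i)) {α β t : ℝ} (ht : 0 < t) (hβ : 0 ≤ β)
    (h1 : ∀ i, nsq (cm (w i) e) ≤ α) (h2 : ∀ i, nsq (k i * w i - w i * c) ≤ α)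
    (h3 : ∀ i j, i ≠ j → tr ((k i)ᴴ * k j) ≤ β) :
    nsq e ≤ Fintype.card n / N + β + 2 * t * Fintype.card n + 2 * (α / t) := by
  obtain ⟨d, hd⟩ : ∃ d : ℝ, d = Fintype.card n := ⟨_, rfl⟩
  rw [← hd] at hed ⊢
  have hN' : (0 : ℝ) < N := by exact_mod_cast hN
  have a1 : ∀ i, 2 * nsq e - 2 * t * d - 2 * (α / t) ≤ 2 * tr (eᴴ * k i) := by
    intro i
    have b1 : tr ((e * w i)ᴴ * (k i * w i)) = tr (eᴴ * k i) := by
      rw [conjTranspose_mul, Matrix.mul_assoc, tr_comm, Matrix.mul_assoc, Matrix.mul_assoc,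
        (hw i).2, Matrix.mul_one]
    have b2 : tr ((w i * e)ᴴ * (w i * c)) = nsq e := by
      rw [conjTranspose_mul, Matrix.mul_assoc, ← Matrix.mul_assoc (w i)ᴴ, (hw i).1,
        Matrix.one_mul, he]
    have b3 : tr ((e * w i)ᴴ * (k i * w i)) = tr ((w i * e)ᴴ * (w i * c)) -
        tr ((w i * e)ᴴ * (w i * c - k i * w i)) - tr ((k i * w i)ᴴ * cm (w i) e) := by
      rw [tr_star_mul_comm (cm (w i) e), cm, conjTranspose_sub, Matrix.sub_mul, Matrix.mul_sub,
        tr_sub, tr_sub]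
      ring
    have b4 := two_tr_le t ht (w i * e) (w i * c - k i * w i)
    have b5 := two_tr_le t ht (k i * w i) (cm (w i) e)
    rw [nsq_U_mul (hw i), nsq_sub_comm] at b4
    rw [nsq_U ((hk i).mul (hw i)), ← hd] at b5
    have b6 := div_le_div_of_nonneg_right (h1 i) ht.le
    have b7 := div_le_div_of_nonneg_right (h2 i) ht.le
    have b8 := mul_le_mul_of_nonneg_left hed ht.le
    linarith
  have a2 := sum_le_sum fun i (_ : i ∈ (univ : Finset (Fin N))) => a1 i
  rw [sum_const, card_univ, Fintype.card_fin, nsmul_eq_mul, ← Finset.mul_sum, ← tr_sum,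
    ← Finset.mul_sum] at a2
  have a3 := two_tr_le N hN' e (∑ i, k i)
  have a4 : nsq (∑ i, k i) ≤ N * (d + N * β) := by
    rw [nsq_eq, conjTranspose_sum, Finset.sum_mul, tr_sum]
    have c1 : ∀ i, tr ((k i)ᴴ * ∑ j, k j) ≤ d + N * β := by
      intro i
      rw [Finset.mul_sum, tr_sum]
      have c2 : ∀ j, tr ((k i)ᴴ * k j) ≤ (if i = j then d else 0) + β := by
        intro j
        split_ifs with h
        · rw [← h, (hk i).1, tr_one, ← hd]
          linarith
        · rw [zero_add]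
          exact h3 i j h
      refine (sum_le_sum fun j _ => c2 j).trans (le_of_eq ?_)
      rw [sum_add_distrib, sum_ite_eq, if_pos (mem_univ i), sum_const, card_univ,
        Fintype.card_fin, nsmul_eq_mul]
    refine (sum_le_sum fun i _ => c1 i).trans (le_of_eq ?_)
    rw [sum_const, card_univ, Fintype.card_fin, nsmul_eq_mul]
  have a5 : nsq (∑ i, k i) / N ≤ d + N * β := by
    rw [div_le_iff₀ hN']
    linarith
  have a6 : N * nsq e ≤ N * (d / N + β + 2 * t * d + 2 * (α / t)) := by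
    have : (N : ℝ) * (d / N) = d := by field_simp
    nlinarith
  exact le_of_mul_le_mul_left a6 hN'

end basic

theorem exists_finset {G : Type} [Group G] [DecidableEq G] (T : Set G) (g : G)
    (hg : g ∈ Subgroup.closure T) :
    ∃ A : Finset G, (A : Set G) ⊆ T ∧ g ∈ Subgroup.closure (A : Set G) := by
  induction hg using Subgroup.closure_induction with
  | mem x hx => exact ⟨{x}, by simpa using hx, Subgroup.subset_closure (by simp)⟩
  | one => exact ⟨∅, by simp, Subgroup.one_mem _⟩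
  | mul x y _ _ hx hy =>
    obtain ⟨A, a1, a2⟩ := hx
    obtain ⟨B, b1, b2⟩ := hy
    refine ⟨A ∪ B, ?_, Subgroup.mul_mem _ ?_ ?_⟩
    · rw [coe_union]; exact Set.union_subset a1 b1
    · exact Subgroup.closure_mono (by rw [coe_union]; exact Set.subset_union_left) a2
    · exact Subgroup.closure_mono (by rw [coe_union]; exact Set.subset_union_right) b2
  | inv x _ hx =>
    obtain ⟨A, a1, a2⟩ := hx
    exact ⟨A, a1, Subgroup.inv_mem _ a2⟩

theorem clFam (hCL : S_CL) (G : Type) [Group G] (T A : Finset G)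
    (hA : ∀ g ∈ A, g ∈ Subgroup.closure (T : Set G)) :
    ∃ (W : Finset G) (C : ℝ), 0 ≤ C ∧
      ∀ (n : Type) [Fintype n] [DecidableEq n] (u : G → Mat n), (∀ g, IsU (u g)) → u 1 = 1 →
      ∀ ω : ℝ, 0 ≤ ω → (∀ a ∈ W, ∀ b ∈ W, nsq (df u a b) ≤ ω) →
      ∀ (ι : Type) [Fintype ι] (y : ι → Mat n), LL y ≤ 1 → RR y ≤ 1 →
        ∀ g ∈ A, ∑ i, nsq (cm (u g) (y i)) ≤ C * (EE u T y + ω) := by
  classical
  choose! W C hC hW using fun g (hg : g ∈ A) => hCL G T g (hA g hg)
  refine ⟨A.biUnion W, ∑ g ∈ A, C g, sum_nonneg hC, ?_⟩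
  intro n _ _ u hu h1 ω hω hd ι _ y hL hR g hg
  have h := hW g hg n u hu h1 ι y ω hω fun a ha b hb =>
    have := hd a (mem_biUnion.2 ⟨g, hg, ha⟩) b (mem_biUnion.2 ⟨g, hg, hb⟩)
    ⟨(sL hL _).trans this, (sR hR _).trans this⟩
  refine h.trans (mul_le_mul_of_nonneg_right (single_le_sum hC hg) ?_)
  exact add_nonneg (EE_nonneg _ _ _) hω

theorem small (K e : ℝ) (he : 0 < e) : ∀ᶠ σ : ℝ in nhdsWithin 0 (Set.Ioi 0), K * σ ≤ e := by
  have hc : Continuous fun η : ℝ => K * η := by fun_prop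
  have h2 : ∀ᶠ η : ℝ in nhds 0, K * η < e :=
    hc.continuousAt.eventually_lt continuousAt_const (by simpa using he)
  filter_upwards [h2.filter_mono nhdsWithin_le_nhds] with η b
  exact b.le

end Pool.Agent.H918Z.KT
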