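import Pool.Agent.H918Z.KT.Mx

set_option autoImplicit false
set_option linter.unusedSectionVars false
set_option linter.unusedVariables false

/-!
Reduction of the unitary Kun-Thom theorem to its matrix core.
-/

namespace Pool.Agent.H918Z.KT

open Matrix Finset Pool.Agent.H304Z.NH Pool.Agent.H602Z.KT
open scoped MatrixOrder ComplexOrder

theorem wrap (hF : Pool.Agent.H494Z.QE.S_FIN) (hD : Pool.Agent.H494Z.QE.S_DEC) (hCL : S_CL)
    (hO : S_ONB) (hFam : S_FAM) (hC : S_CORE) : S_KT := by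
  classical
  intro G _ L SG SL t hKG hSG hKL hSL hcomp ht H _ φ c τ hc hl hM
  choose A hA1 hA2 using fun g : G =>
    exists_finset {r : G | ∀ g ∈ L, r * g * r⁻¹ ∈ L} g (by rw [hcomp]; trivial)
  obtain ⟨T, hT1, hT2, hT3⟩ : ∃ T : Finset G, (∀ r ∈ T, ∀ g ∈ L, r * g * r⁻¹ ∈ L) ∧ t ∈ T ∧
      ∀ s ∈ SG, s ∈ Subgroup.closure (T : Set G) := by
    refine ⟨insert t (SG.biUnion A), ?_, mem_insert_self _ _, ?_⟩
    · intro r hr
      rcases mem_insert.1 hr with rfl | hr
      · exact ht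
      · obtain ⟨s, -, hs⟩ := mem_biUnion.1 hr
        exact hA1 s (mem_coe.2 hs)
    · intro s hs
      refine Subgroup.closure_mono ?_ (hA2 s)
      intro x hx
      exact mem_coe.2 (mem_insert_of_mem (mem_biUnion.2 ⟨s, hs, mem_coe.1 hx⟩))
  obtain ⟨cj, hcj⟩ : ∃ cj : G → L → L, ∀ r ∈ T, ∀ s : L, (cj r s : G) = r * s * r⁻¹ :=
    ⟨fun r s => if h : r * s * r⁻¹ ∈ L then ⟨_, h⟩ else 1, fun r hr s => by
      simp only [dif_pos (hT1 r hr s s.2)]⟩
  obtain ⟨CF, hCF, hFin⟩ := hF L SL hKL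
  obtain ⟨κ, hκ, hDec⟩ := hD G SG hKG
  obtain ⟨W1, C1, hC1, h1⟩ := clFam hCL G SG (T ∪ SL.image (fun s : L => (s : G)))
    (fun g _ => by rw [hSG]; trivial)
  obtain ⟨W2, C2, hC2, h2⟩ := clFam hCL G T SG hT3
  obtain ⟨W3, C3, hC3, h3⟩ := clFam hCL L SL ((T ×ˢ SL).image fun q => cj q.1 q.2)
    (fun g _ => by rw [hSL]; trivial)
  obtain ⟨ε, hε, hCore⟩ := hC T.card (κ * (SG.card * C2)) (by positivity)
  obtain ⟨N, hN⟩ := exists_nat_gt (4 / ε)
  have hN0 : (0 : ℝ) < N := lt_trans (by positivity) hN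
  obtain ⟨l, hl⟩ := hl N
  obtain ⟨W4, C4, hC4, h4⟩ := clFam hCL L SL (univ.image l) (fun g _ => by rw [hSL]; trivial)
  obtain ⟨εF, hεF, hFam'⟩ := hFam SL.card CF (ε / 2) hCF (by positivity)
  obtain ⟨K2, hK2⟩ : ∃ K2 : ℝ, K2 = 4 * (C3 * (SL.card * (6 * C1 + 6) + 1)) + 48 := ⟨_, rfl⟩
  obtain ⟨K3, hK3⟩ : ∃ K3 : ℝ, K3 = C4 * (SL.card * 4 + 1) + 4 := ⟨_, rfl⟩
  obtain ⟨σ, hσ, s1, s2, s3, s4, s5, s6⟩ : ∃ σ : ℝ, 0 < σ ∧ 1 * σ ≤ εF ∧ 1 * σ ≤ ε / 4 ∧
      2 * C1 * σ ≤ ε ∧ 16 * CF * (SL.card * (2 * C1)) * σ ≤ ε / 2 ∧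
      16 * CF * (SL.card * K2) * σ ≤ ε / 2 ∧ 2 * (K3 / (ε / 8)) * σ ≤ ε / 4 := by
    have e0 : ∀ᶠ σ : ℝ in nhdsWithin 0 (Set.Ioi 0), 0 < σ := self_mem_nhdsWithin
    exact (e0.and ((small _ _ hεF).and ((small _ _ (by positivity)).and ((small _ _ hε).and
      ((small _ _ (by positivity)).and ((small _ _ (by positivity)).and
      (small _ _ (by positivity)))))))).exists
  rw [one_mul] at s1 s2
  obtain ⟨WF, δF, hδF, hFin'⟩ := hFin σ hσ
  obtain ⟨WD, δD, hδD, hDec'⟩ := hDec σ hσ ∅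
  obtain ⟨ci, hci⟩ : ∃ ci : Fin N → H, ∀ i, ci i = φ (l i) * c * (φ (l i))⁻¹ :=
    ⟨_, fun _ => rfl⟩
  obtain ⟨W, mD, m1, m2, mT, mF, m3, m4, mS, mj, ml, mc, mi⟩ : ∃ W : Finset H,
      (∀ g ∈ WD, φ g ∈ W) ∧ (∀ g ∈ W1, φ g ∈ W) ∧ (∀ g ∈ W2, φ g ∈ W) ∧ (∀ g ∈ T, φ g ∈ W) ∧
      (∀ g ∈ WF, φ g ∈ W) ∧ (∀ g ∈ W3, φ g ∈ W) ∧ (∀ g ∈ W4, φ g ∈ W) ∧ (∀ g ∈ SL, φ g ∈ W) ∧
      (∀ r ∈ T, ∀ s ∈ SL, φ (cj r s) ∈ W) ∧ (∀ i, φ (l i) ∈ W) ∧ c ∈ W ∧ ∀ i, ci i ∈ W := by
    refine ⟨(WD ∪ W1 ∪ W2 ∪ T).image φ ∪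
      (WF ∪ W3 ∪ W4 ∪ SL ∪ (T ×ˢ SL).image (fun q => cj q.1 q.2) ∪ univ.image l).image
        (fun g : L => φ g) ∪ insert c (univ.image ci), ?_, ?_, ?_, ?_, ?_, ?_, ?_, ?_, ?_, ?_,
      ?_, ?_⟩
    iterate 4
      intro g hg
      exact mem_union_left _ (mem_union_left _ (mem_image_of_mem _ (by simp [hg])))
    iterate 4
      intro g hg
      exact mem_union_left _ (mem_union_right _
        (mem_image_of_mem (fun g : L => φ g) (by simp [hg])))
    · intro r hr s hs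
      refine mem_union_left _ (mem_union_right _ (mem_image_of_mem (fun g : L => φ g) ?_))
      exact mem_union_left _ (mem_union_right _
        (mem_image_of_mem (fun q : G × L => cj q.1 q.2) (a := (r, s)) (mk_mem_product hr hs)))
    · intro i
      refine mem_union_left _ (mem_union_right _ (mem_image_of_mem (fun g : L => φ g) ?_))
      exact mem_union_right _ (mem_image_of_mem _ (mem_univ i))
    · exact mem_union_right _ (mem_insert_self _ _)
    · intro i
      exact mem_union_right _ (mem_insert_of_mem (mem_image_of_mem _ (mem_univ i)))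
  obtain ⟨n, _, _, _, u, hu, hu1, hW⟩ := hM W (min σ (min δF δD)) (by positivity)
  obtain ⟨d, hd⟩ : ∃ d : ℝ, d = Fintype.card n := ⟨_, rfl⟩
  have hd0 : 0 ≤ d := by rw [hd]; positivity
  have hω : 0 ≤ σ * d := by positivity
  obtain ⟨uG, huG⟩ : ∃ uG : G → Mat n, uG = fun g => u (φ g) := ⟨_, rfl⟩
  obtain ⟨uL, huL⟩ : ∃ uL : L → Mat n, uL = fun g : L => u (φ g) := ⟨_, rfl⟩
  have eG : ∀ g, uG g = u (φ g) := fun g => by rw [huG]
  have eL : ∀ g : L, uL g = u (φ g) := fun g => by rw [huL]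
  have hUG : ∀ g, IsU (uG g) := fun g => by rw [eG]; exact hu _
  have hUL : ∀ g, IsU (uL g) := fun g => by rw [eL]; exact hu _
  have hG1 : uG 1 = 1 := by rw [eG, map_one, hu1]
  have hL1 : uL 1 = 1 := by rw [eL, Subgroup.coe_one, map_one, hu1]
  have dG : ∀ a b, df uG a b = df u (φ a) (φ b) := fun a b => by
    simp only [df, eG, map_mul]
  have dL : ∀ a b : L, df uL a b = df u (φ a) (φ b) := fun a b => by
    simp only [df, eL, Subgroup.coe_mul, map_mul]
  have hdf : ∀ g ∈ W, ∀ h ∈ W, nsq (df u g h) ≤ σ * d := fun g hg h hh => by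
    rw [hd]
    exact (hW g hg h hh).1.trans (mul_le_mul_of_nonneg_right (min_le_left _ _) (by positivity))
  obtain ⟨v, hv, hx⟩ := hFin' n uL hUL hL1 fun g hg h hh => by
    rw [dL]
    exact (hW _ (mF g hg) _ (mF h hh)).1.trans (mul_le_mul_of_nonneg_right
      ((min_le_right _ _).trans (min_le_left _ _)) (by positivity))
  obtain ⟨J, _, p, hp, -, hpo, hpt, hpe, hPI, -⟩ := hDec' n uG hUG hG1 fun g hg h hh => by
    rw [dG]
    exact (hW _ (mD g hg) _ (mD h hh)).1.trans (mul_le_mul_of_nonneg_right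
      ((min_le_right _ _).trans (min_le_right _ _)) (by positivity))
  have g1 := h1 n uG hUG hG1 _ hω fun a ha b hb => by
    rw [dG]; exact hdf _ (m1 a ha) _ (m1 b hb)
  have g2 := h2 n uG hUG hG1 _ hω fun a ha b hb => by
    rw [dG]; exact hdf _ (m2 a ha) _ (m2 b hb)
  have g3 := h3 n uL hUL hL1 _ hω fun a ha b hb => by
    rw [dL]; exact hdf _ (m3 a ha) _ (m3 b hb)
  have g4 := h4 n uL hUL hL1 _ hω fun a ha b hb => by
    rw [dL]; exact hdf _ (m4 a ha) _ (m4 b hb)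
  rw [← hd] at hv hpt
  obtain ⟨B, hB⟩ : ∃ B : StarSubalgebra ℂ (Mat n), ∀ a, a ∈ B ↔
      ∀ s ∈ SL, v s * a = a * v s ∧ (v s)ᴴ * a = a * (v s)ᴴ := by
    refine ⟨StarSubalgebra.centralizer ℂ (v '' (SL : Set L)), fun a => ?_⟩
    rw [StarSubalgebra.mem_centralizer_iff]
    constructor
    · intro h s hs
      exact h _ ⟨s, hs, rfl⟩
    · rintro h _ ⟨s, hs, rfl⟩
      exact h s hs
  obtain ⟨ι, _, _, y, hy⟩ := hO n B
  have fam := hFam' n L uL SL le_rfl hUL B ι y hy fun x hx1 => by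
    obtain ⟨a, ha, ha'⟩ := hx x hx1
    refine ⟨a, (hB a).2 ha, ha'.trans ?_⟩
    have := mul_le_mul_of_nonneg_right s1 hd0
    rw [← hd]
    linarith
  rw [← hd] at fam
  have hp1 : ∑ j, p j ≤ 1 := sum_proj hp hpo
  have hLp : LL p ≤ 1 := by rw [LL_proj hp]; exact hp1
  have hRp : RR p ≤ 1 := by rw [RR_proj hp]; exact hp1
  have hEp : EE uG SG p ≤ σ * d := by
    refine (sum_le_sum fun j _ => hpe j).trans ?_
    rw [← Finset.mul_sum, ← tr_sum, hd, ← tr_one]
    exact mul_le_mul_of_nonneg_left (tr_mono hp1) hσ.le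
  have cp : ∀ g ∈ T ∪ SL.image (fun s : L => (s : G)),
      ∑ j, nsq (cm (uG g) (p j)) ≤ 2 * C1 * (σ * d) := fun g hg => by
    refine (g1 J p hLp hRp g hg).trans ?_
    have := mul_le_mul_of_nonneg_left hEp hC1
    linarith
  have cpL : ∀ s ∈ SL, ∑ j, nsq (cm (uL s) (p j)) ≤ 2 * C1 * (σ * d) := fun s hs => by
    have := cp s (mem_union_right _ (mem_image_of_mem _ hs))
    rwa [eG, ← eL] at this
  have hφt := eG t
  refine hCore n B ι y hy J p hp hp1 ?_ ?_ G uG T t (u c) le_rfl hT2 hUG (hu c) ?_ ?_ ?_ ?_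
  · rw [← hd]
    refine le_trans (mul_le_mul_of_nonneg_right ?_ hd0) hpt
    linarith
  · rw [← hd]
    have a1 := fam J p hLp hRp
    have a2 := mul_le_mul_of_nonneg_left (EE_le cpL) (show 0 ≤ 16 * CF by positivity)
    have a3 := mul_le_mul_of_nonneg_right s4 hd0
    linarith
  · intro r hr
    rw [← hd]
    have a1 := cp r (mem_union_left _ hr)
    have a3 := mul_le_mul_of_nonneg_right s3 hd0
    linarith
  · intro b hbB hb hR
    rw [← hd]
    have hL : LL (fun q : J × ι => p q.1 * b q.1 q.2) ≤ 1 := (LL_pb hp hb).trans hp1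
    generalize hz : (fun q : J × ι => p q.1 * b q.1 q.2) = z at hL
    have hz' : ∀ q, p q.1 * b q.1 q.2 = z q := fun q => congrFun hz q
    have a1 : EE uL SL z ≤ SL.card * ((6 * C1 + 6) * (σ * d)) := by
      refine EE_le fun s hs => ?_
      have b1 := pb_en (a := uL s) hRp hb hR fun j i => (((hB _).1 (hbB j i)) s hs).1
      simp only [hz'] at b1
      have b2 := cpL s hs
      have b3 := hv s hs
      linarith
    rw [hz] at hR
    have key : ∀ r ∈ T, ∀ k : Mat n, IsU k →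
        (∀ s ∈ SL, nsq (k * uL (cj r s) - uL (cj r s) * k) ≤ 4 * (σ * d)) →
        NB y (fun q => (uG r)ᴴ * z q * (k * uG r)) ≤ ε * d := by
      intro r hr k hk hk'
      have b1 := fam (J × ι) _ (LL_cj hL (hUG r).star (hk.mul (hUG r)))
        (RR_cj hR (hUG r).star (hk.mul (hUG r)))
      have b2 : EE uL SL (fun q => (uG r)ᴴ * z q * (k * uG r)) ≤ SL.card * (K2 * (σ * d)) := by
        refine EE_le fun s hs => ?_
        have c1 := conj_en (uL s) (uL (cj r s)) (hUG r) hk hL hR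
        have c2 := g3 (J × ι) z hL hR (cj r s)
          (mem_image_of_mem (fun q : G × L => cj q.1 q.2) (a := (r, s)) (mk_mem_product hr hs))
        have c3 := hk' s hs
        have c4 : nsq (uG r * uL s - uL (cj r s) * uG r) ≤ 4 * (σ * d) := by
          rw [eG, eL, eL]
          refine df2 u ?_ (hdf _ (mT r hr) _ (mS s hs)) (hdf _ (mj r hr s hs) _ (mT r hr))
          rw [← map_mul, ← map_mul, hcj r hr, inv_mul_cancel_right]
        have c5 := mul_le_mul_of_nonneg_left a1 hC3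
        rw [hK2]
        linarith
      have b3 := mul_le_mul_of_nonneg_left b2 (show 0 ≤ 16 * CF by positivity)
      have b4 := mul_le_mul_of_nonneg_right s5 hd0
      linarith
    simp only [hz']
    refine ⟨fun r hr => ?_, key t hT2 (u c) (hu c) fun s hs => ?_⟩
    · have := key r hr 1 ⟨by simp, by simp⟩ fun s hs => by
        rw [Matrix.one_mul, Matrix.mul_one, sub_self, nsq_zero]
        positivity
      simpa only [Matrix.one_mul] using this
    · rw [eL]
      refine df2 u ?_ (hdf _ mc _ (mj t hT2 s hs)) (hdf _ (mj t hT2 s hs) _ mc)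
      rw [hcj t hT2]
      exact hc s s.2
  · intro h hh
    rw [← hd]
    have a1 : ∑ j, h j * h j ≤ 1 := (sum_le_sum fun j _ => (hh j).2.2).trans hp1
    have hL : LL h ≤ 1 := le_of_eq_of_le (sum_congr rfl fun j _ => by rw [(hh j).1]) a1
    have hR : RR h ≤ 1 := le_of_eq_of_le (sum_congr rfl fun j _ => by rw [(hh j).1]) a1
    choose k hk using fun j => hPI j (h j) (hh j).1 (by
      have := congrArg conjTranspose (hh j).2.1
      rw [conjTranspose_mul, (hh j).1, (hp j).1] at this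
      rw [this, (hh j).2.1])
    refine ⟨k, ?_⟩
    have a2 : ∑ j, nsq (h j - k j • p j) ≤ κ * EE uG SG h := by
      rw [EE, Finset.mul_sum]
      refine sum_le_sum fun j _ => ?_
      have := hk j
      rwa [(hh j).2.1] at this
    have a3 : EE uG SG h ≤ SG.card * (C2 * (EE uG T h + ε * d)) := by
      refine EE_le fun s hs => (g2 J h hL hR s hs).trans (mul_le_mul_of_nonneg_left ?_ hC2)
      have := mul_le_mul_of_nonneg_right (show σ ≤ ε by linarith) hd0
      linarith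
    have a4 := mul_le_mul_of_nonneg_left a3 hκ
    have a5 : EE uG T h = ∑ j, en uG T (h j) := rfl
    rw [← a5]
    linarith
  · have he := EB_contr hy (hu c)
    have heB := EB_mem hy (u c)
    have ht1 : tr ((EB y (u c))ᴴ * u c) = nsq (EB y (u c)) := by
      rw [nsq_eq, tr, tr, trace_mem_EB hy heB]
    have ht2 : nsq (EB y (u c)) ≤ Fintype.card n := by
      rw [← nsq_U (hu c)]
      exact nsq_EB_le hy _
    generalize EB y (u c) = e at he heB ht1 ht2
    have hL : LL (fun _ : Unit => e) ≤ 1 := by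
      rw [LL, Fintype.sum_unique]
      exact mul_star_le_one he
    have hR : RR (fun _ : Unit => e) ≤ 1 := by
      rw [RR, Fintype.sum_unique]
      exact he
    have a1 : EE uL SL (fun _ : Unit => e) ≤ SL.card * (4 * (σ * d)) := by
      refine EE_le fun s hs => ?_
      rw [Fintype.sum_unique]
      have b1 := cm_contr (a := uL s) he (((hB _).1 heB) s hs).1
      have b2 := hv s hs
      linarith
    have a2 := ec (w := fun i => uL (l i)) (k := fun i => u (ci i)) (α := K3 * (σ * d)) (β := σ * d)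
      (t := ε / 8) (by exact_mod_cast hN0) ht1 ht2 (fun i => hUL _) (fun i => hu _)
      (by positivity) hω (fun i => ?_) (fun i => ?_) (fun i j hij => ?_)
    · rw [← hd] at a2 ⊢
      have b1 : d / N ≤ ε / 4 * d := by
        rw [div_le_iff₀ hN0]
        rw [div_lt_iff₀ hε] at hN
        nlinarith
      have b2 := mul_le_mul_of_nonneg_right s2 hd0
      have b3 := mul_le_mul_of_nonneg_right s6 hd0
      have b4 : K3 * (σ * d) / (ε / 8) = K3 / (ε / 8) * σ * d := by ring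
      linarith
    · have b1 := g4 Unit _ hL hR (l i) (mem_image_of_mem _ (mem_univ i))
      rw [Fintype.sum_unique] at b1
      have b2 := mul_le_mul_of_nonneg_left a1 hC4
      rw [hK3]
      linarith
    · have b1 : nsq (u (ci i) * u (φ (l i)) - u (φ (l i)) * u c) ≤ 4 * (σ * d) := by
        refine df2 u ?_ (hdf _ (mi i) _ (ml i)) (hdf _ (ml i) _ mc)
        rw [hci, inv_mul_cancel_right]
      have b2 : 0 ≤ C4 * (SL.card * 4 + 1) * (σ * d) := by positivity
      rw [eL, hK3]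
      linarith
    · refine (hW _ (mi i) _ (mi j)).2.trans ?_
      rw [← hd]
      refine mul_le_mul_of_nonneg_right ?_ hd0
      have b1 := hl i j hij
      rw [← hci, ← hci] at b1
      have b2 := min_le_left σ (min δF δD)
      linarith

end Pool.Agent.H918Z.KT
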